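import Pool.Agent.Helper98.EX.Stmts2

/-!
# Module ATCMP: comparison of the travel weights
-/

namespace Pool.Agent.Helper98.EX

open Finset

/-- recursive majorant of the truncated weights -/
noncomputable def atcmp_T (r l : ℕ → ℝ) (η0 : ℝ) : ℕ → ℝ
  | 0 => (1 + η0) / r 1
  | y + 1 => (1 + η0) * (1 + l (y + 1) * atcmp_T r l η0 y) / r (y + 2)

theorem atcmp_T_nonneg {r l : ℕ → ℝ} {η0 : ℝ} (hη : 0 ≤ η0) {y : ℕ}
    (hr : ∀ x, 1 ≤ x → x ≤ y + 1 → 0 < r x) (hl : ∀ x, 1 ≤ x → x ≤ y + 1 → 0 ≤ l x) :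
    0 ≤ atcmp_T r l η0 y := by
  induction y with
  | zero =>
    unfold atcmp_T
    exact div_nonneg (by linarith) (hr 1 le_rfl (by omega)).le
  | succ y ih =>
    have h1 := ih (fun x a b => hr x a (by omega)) (fun x a b => hl x a (by omega))
    have h2 := hl (y + 1) (by omega) (by omega)
    unfold atcmp_T
    apply div_nonneg _ (hr (y + 2) (by omega) (by omega)).le
    have := mul_nonneg h2 h1
    exact mul_nonneg (by linarith) (by linarith)

theorem atcmp_sum_le {r l : ℕ → ℝ} {η0 : ℝ} (hη : 0 ≤ η0) {y : ℕ}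
    (hr : ∀ x, 1 ≤ x → x ≤ y + 1 → 0 < r x) (hl : ∀ x, 1 ≤ x → x ≤ y + 1 → 0 ≤ l x)
    {n : ℕ} (hn : n ≤ y + 1) :
    ∑ d ∈ range n, (1 + η0) ^ (d + 1) * RR r l (y - d) y / r (y + 1) ≤ atcmp_T r l η0 y := by
  induction y generalizing n with
  | zero =>
    rcases Nat.eq_zero_or_pos n with h | h
    · subst h
      simpa using atcmp_T_nonneg hη hr hl
    · have e : n = 1 := by omega
      subst e
      simp [RR, atcmp_T]
  | succ y ih =>
    rcases Nat.eq_zero_or_pos n with h | h
    · subst h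
      simpa using atcmp_T_nonneg hη hr hl
    · obtain ⟨m, rfl⟩ : ∃ m, n = m + 1 := ⟨n - 1, by omega⟩
      have h1 := ih (fun x a b => hr x a (by omega)) (fun x a b => hl x a (by omega))
        (n := m) (by omega)
      have hr1 := hr (y + 1) (by omega) (by omega)
      have hr2 := hr (y + 2) (by omega) (by omega)
      have hl1 := hl (y + 1) (by omega) (by omega)
      rw [Finset.sum_range_succ']
      have e1 : (1 + η0) ^ (0 + 1) * RR r l (y + 1 - 0) (y + 1) / r (y + 1 + 1) =
          (1 + η0) / r (y + 2) := by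
        simp [RR]
      have e2 : ∀ d ∈ range m, (1 + η0) ^ (d + 1 + 1) * RR r l (y + 1 - (d + 1)) (y + 1) /
          r (y + 1 + 1) = (1 + η0) * (l (y + 1) / r (y + 2)) *
            ((1 + η0) ^ (d + 1) * RR r l (y - d) y / r (y + 1)) := by
        intro d _
        have e3 : y + 1 - (d + 1) = y - d := by omega
        rw [e3]
        unfold RR
        rw [Finset.prod_Ioc_succ_top (by omega : y - d ≤ y)]
        field_simp
        ring
      rw [Finset.sum_congr rfl e2, e1, ← Finset.mul_sum]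
      have h2 : (1 + η0) * (l (y + 1) / r (y + 2)) *
          ∑ d ∈ range m, (1 + η0) ^ (d + 1) * RR r l (y - d) y / r (y + 1) ≤
          (1 + η0) * (l (y + 1) / r (y + 2)) * atcmp_T r l η0 y := by
        apply mul_le_mul_of_nonneg_left h1
        exact mul_nonneg (by linarith) (div_nonneg hl1 hr2.le)
      have h3 : atcmp_T r l η0 (y + 1) = (1 + η0) * (l (y + 1) / r (y + 2)) * atcmp_T r l η0 y +
          (1 + η0) / r (y + 2) := by
        show (1 + η0) * (1 + l (y + 1) * atcmp_T r l η0 y) / r (y + 2) = _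
        field_simp
        ring
      rw [h3]
      linarith

theorem atcmp_aa_bounds {N : ℕ} {r l : ℕ → ℝ} {p0 q0 : ℝ} (hq : 0 < q0) (hqp : q0 < p0)
    (hNN : NN N r l p0 q0) {y : ℕ} (hy : y + 1 < N) :
    1 ≤ aa r l y ∧ aa r l y ≤ 1 / (p0 - q0) := by
  have hd : 0 < p0 - q0 := by linarith
  have hp : 0 < p0 := by linarith
  induction y with
  | zero =>
    obtain ⟨a1, a2, a3, a4⟩ := hNN 1 le_rfl hy
    have hr : 0 < r 1 := by linarith
    show 1 ≤ 1 / r 1 ∧ 1 / r 1 ≤ 1 / (p0 - q0)
    constructor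
    · rw [le_div_iff₀ hr]; linarith
    · exact one_div_le_one_div_of_le hd (by linarith)
  | succ y ih =>
    obtain ⟨b1, b2⟩ := ih (by omega)
    obtain ⟨a1, a2, a3, a4⟩ := hNN (y + 1) (by omega) (by omega)
    obtain ⟨c1, c2, c3, c4⟩ := hNN (y + 2) (by omega) (by omega)
    have hr : 0 < r (y + 2) := by linarith
    show 1 ≤ (1 + l (y + 1) * aa r l y) / r (y + 2) ∧
      (1 + l (y + 1) * aa r l y) / r (y + 2) ≤ 1 / (p0 - q0)
    have h1 : 0 ≤ l (y + 1) * aa r l y := mul_nonneg a3 (by linarith)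
    constructor
    · rw [le_div_iff₀ hr]; linarith
    · have h2 : l (y + 1) * aa r l y ≤ q0 * (1 / (p0 - q0)) :=
        mul_le_mul a4 b2 (by linarith) hq.le
      have h3 : (1 + q0 * (1 / (p0 - q0))) / p0 = 1 / (p0 - q0) := by
        field_simp
        ring
      calc (1 + l (y + 1) * aa r l y) / r (y + 2)
          ≤ (1 + q0 * (1 / (p0 - q0))) / r (y + 2) :=
            div_le_div_of_nonneg_right (by linarith) hr.le
        _ ≤ (1 + q0 * (1 / (p0 - q0))) / p0 :=
            div_le_div_of_nonneg_left (by positivity) hp c1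
        _ = 1 / (p0 - q0) := h3

/-- module ATCMP -/
theorem st_ATCMP : ST_ATCMP := by
  intro p0 q0 hq hqp hp1
  have hd : 0 < p0 - q0 := by linarith
  have hp : 0 < p0 := by linarith
  set C : ℝ := 4 / (p0 - q0) + 1 with hC
  have hC1 : 1 < C := by
    rw [hC]; have : 0 < 4 / (p0 - q0) := by positivity
    linarith
  have hC0 : 0 < C := by linarith
  refine ⟨C, 1 / C, hC0, by positivity, ?_, ?_⟩
  · rw [div_le_one hC0]; exact hC1.le
  intro η0 hη hηm
  have hCη : C * η0 ≤ 1 := by
    rw [le_div_iff₀ hC0] at hηm; linarith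
  refine ⟨⌈2 / η0⌉₊ + 1, ?_⟩
  intro N r l w y hN hNN hy
  have hN1 : (1 : ℝ) ≤ N := by
    have : 1 ≤ N := by omega
    exact_mod_cast this
  have hN2 : 2 / η0 ≤ N := by
    have h1 : 2 / η0 ≤ ⌈2 / η0⌉₊ := Nat.le_ceil _
    have h2 : ((⌈2 / η0⌉₊ + 1 : ℕ) : ℝ) ≤ N := by exact_mod_cast hN
    push_cast at h2
    linarith
  -- the modification is small
  have ht0 : 0 ≤ (N : ℝ) ^ (-100 : ℝ) := Real.rpow_nonneg (by linarith) _
  have ht1 : (N : ℝ) ^ (-100 : ℝ) ≤ η0 / 2 := by
    have h1 : (N : ℝ) ^ (-100 : ℝ) ≤ (N : ℝ) ^ (-1 : ℝ) :=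
      Real.rpow_le_rpow_of_exponent_le hN1 (by norm_num)
    have h2 : (N : ℝ) ^ (-1 : ℝ) = 1 / N := by
      rw [Real.rpow_neg_one]; ring
    rw [h2] at h1
    refine h1.trans ?_
    rw [div_le_div_iff₀ (by linarith) (by norm_num)]
    rw [div_le_iff₀ hη] at hN2
    linarith
  obtain ⟨q1, q2⟩ := atcmp_aa_bounds hq hqp hNN hy
  refine ⟨q1, ?_, ?_, ?_⟩
  · refine q2.trans ?_
    rw [hC]
    have : 1 / (p0 - q0) ≤ 4 / (p0 - q0) := div_le_div_of_nonneg_right (by norm_num) hd.le
    linarith
  · -- the majorant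
    have hmod : ∀ x, 1 ≤ x → x < N → 0 ≤ modl N l x ∧ modl N l x ≤ l x + η0 / 2 := by
      intro x h1 h2
      obtain ⟨a1, a2, a3, a4⟩ := hNN x h1 h2
      unfold modl
      exact ⟨le_max_of_le_left a3, max_le (by linarith) (by linarith)⟩
    have h1 : atl r (modl N l) η0 w y ≤ atcmp_T r (modl N l) η0 y := by
      unfold atl
      apply atcmp_sum_le hη.le
      · intro x a b
        obtain ⟨a1, a2, a3, a4⟩ := hNN x a (by omega)
        linarith
      · intro x a b
        exact (hmod x a (by omega)).1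
      · exact min_le_right _ _
    refine h1.trans ?_
    have key : ∀ z, z + 1 < N → atcmp_T r (modl N l) η0 z ≤ (1 + C * η0) * aa r l z := by
      intro z
      induction z with
      | zero =>
        intro hz
        obtain ⟨a1, a2, a3, a4⟩ := hNN 1 le_rfl hz
        have hr : 0 < r 1 := by linarith
        show (1 + η0) / r 1 ≤ (1 + C * η0) * (1 / r 1)
        rw [mul_one_div]
        apply div_le_div_of_nonneg_right _ hr.le
        nlinarith
      | succ z ih =>
        intro hz
        have ih' := ih (by omega)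
        obtain ⟨b1, b2⟩ := atcmp_aa_bounds hq hqp hNN (by omega : z + 1 < N)
        obtain ⟨a1, a2, a3, a4⟩ := hNN (z + 1) (by omega) (by omega)
        obtain ⟨c1, c2, c3, c4⟩ := hNN (z + 2) (by omega) (by omega)
        obtain ⟨m1, m2⟩ := hmod (z + 1) (by omega) (by omega)
        have hr : 0 < r (z + 2) := by linarith
        show (1 + η0) * (1 + modl N l (z + 1) * atcmp_T r (modl N l) η0 z) / r (z + 2) ≤
          (1 + C * η0) * ((1 + l (z + 1) * aa r l z) / r (z + 2))
        rw [← mul_div_assoc]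
        apply div_le_div_of_nonneg_right _ hr.le
        -- main inequality
        have k1 : modl N l (z + 1) * atcmp_T r (modl N l) η0 z ≤
            (l (z + 1) + η0 / 2) * ((1 + C * η0) * aa r l z) := by
          refine (mul_le_mul_of_nonneg_left ih' m1).trans ?_
          apply mul_le_mul_of_nonneg_right m2
          have : 0 ≤ C * η0 := by positivity
          exact mul_nonneg (by linarith) (by linarith)
        have k2 : (1 + η0) * (1 + modl N l (z + 1) * atcmp_T r (modl N l) η0 z) ≤
            (1 + η0) * (1 + (l (z + 1) + η0 / 2) * ((1 + C * η0) * aa r l z)) := by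
          apply mul_le_mul_of_nonneg_left _ (by linarith)
          linarith
        refine k2.trans ?_
        have k3 : (1 + C * η0) * aa r l z * (η0 * l (z + 1) + (1 + η0) * (η0 / 2)) ≤
            (C - 1) * η0 := by
          have hη1 : η0 ≤ 1 := by nlinarith
          have n1 : (1 + C * η0) * aa r l z ≤ 2 * (1 / (p0 - q0)) :=
            mul_le_mul (by linarith) b2 (by linarith) (by norm_num)
          have n2 : η0 * l (z + 1) + (1 + η0) * (η0 / 2) ≤ 2 * η0 := by nlinarith
          have n3 : 0 ≤ η0 * l (z + 1) + (1 + η0) * (η0 / 2) := by positivity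
          have n4 : (C - 1) * η0 = 2 * (1 / (p0 - q0)) * (2 * η0) := by
            rw [hC]; ring
          rw [n4]
          exact mul_le_mul n1 n2 n3 (by positivity)
        nlinarith [k3]
    exact key y hy
  · cases y with
    | zero =>
      obtain ⟨a1, a2, a3, a4⟩ := hNN 1 le_rfl hy
      have hr : r 1 ≠ 0 := by
        have : 0 < r 1 := by linarith
        exact this.ne'
      show r (0 + 1) * (1 / r 1) = 1 + (if (0 : ℕ) = 0 then 0 else l 0 * aa r l (0 - 1))
      simp [hr]
    | succ y =>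
      obtain ⟨c1, c2, c3, c4⟩ := hNN (y + 2) (by omega) (by omega)
      have hr : r (y + 2) ≠ 0 := by
        have : 0 < r (y + 2) := by linarith
        exact this.ne'
      rw [if_neg (by omega)]
      show r (y + 2) * ((1 + l (y + 1) * aa r l y) / r (y + 2)) = 1 + l (y + 1) * aa r l y
      field_simp

end Pool.Agent.Helper98.EX
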