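import Pool.Agent.Helper98.EX.Stmts

/-!
# Module LOCHIT: local hitting of the top state
-/

namespace Pool.Agent.Helper98.EX

open Finset

/-! ### the hitting operator -/

theorem lochit_stp_le_one {N : ℕ} {r l : ℕ → ℝ} (h : Adm N r l) (S : Finset ℕ) {f : Cfg N → ℝ}
    (hf : ∀ η, f η ≤ 1) (η : Cfg N) : stp r l S f η ≤ 1 := by
  have := stp_mono (S := S) h (f := f) (g := fun _ => 1) hf η
  rwa [stp_const] at this

theorem lochit_nonneg {N : ℕ} {r l : ℕ → ℝ} (h : Adm N r l) (S : Finset ℕ) (T : Set (Cfg N))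
    (m : ℕ) (η : Cfg N) : 0 ≤ nohit r l S T m η := by
  induction m generalizing η with
  | zero => unfold nohit; linarith [ind_le_one T η]
  | succ m ih =>
    unfold nohit
    exact mul_nonneg (by linarith [ind_le_one T η]) (stp_nonneg h ih η)

theorem lochit_le_one {N : ℕ} {r l : ℕ → ℝ} (h : Adm N r l) (S : Finset ℕ) (T : Set (Cfg N))
    (m : ℕ) (η : Cfg N) : nohit r l S T m η ≤ 1 := by
  induction m generalizing η with
  | zero => unfold nohit; linarith [ind_nonneg T η]
  | succ m ih =>
    unfold nohit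
    have h1 := ind_nonneg T η
    have h2 := ind_le_one T η
    have h3 := lochit_stp_le_one h S ih η
    have h4 : 0 ≤ stp r l S (nohit r l S T m) η := stp_nonneg h (lochit_nonneg h S T m) η
    nlinarith

theorem lochit_succ_le {N : ℕ} {r l : ℕ → ℝ} (h : Adm N r l) (S : Finset ℕ) (T : Set (Cfg N))
    (m : ℕ) (η : Cfg N) : nohit r l S T (m + 1) η ≤ nohit r l S T m η := by
  induction m generalizing η with
  | zero =>
    show (1 - ind T η) * stp r l S (nohit r l S T 0) η ≤ 1 - ind T η
    have h2 := ind_le_one T η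
    have h3 := lochit_stp_le_one h S (lochit_le_one h S T 0) η
    nlinarith
  | succ m ih =>
    show (1 - ind T η) * stp r l S (nohit r l S T (m + 1)) η ≤
      (1 - ind T η) * stp r l S (nohit r l S T m) η
    have h2 := ind_le_one T η
    exact mul_le_mul_of_nonneg_left (stp_mono h ih η) (by linarith)

theorem lochit_anti {N : ℕ} {r l : ℕ → ℝ} (h : Adm N r l) (S : Finset ℕ) (T : Set (Cfg N))
    {m n : ℕ} (hmn : m ≤ n) (η : Cfg N) : nohit r l S T n η ≤ nohit r l S T m η :=
  antitone_nat_of_succ_le (f := fun m => nohit r l S T m η)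
    (fun m => lochit_succ_le h S T m η) hmn

theorem lochit_mem {N : ℕ} {r l : ℕ → ℝ} (S : Finset ℕ) (T : Set (Cfg N))
    (m : ℕ) {η : Cfg N} (hη : η ∈ T) : nohit r l S T m η = 0 := by
  cases m with
  | zero => unfold nohit; rw [ind_of_mem hη]; ring
  | succ m => unfold nohit; rw [ind_of_mem hη]; ring

theorem lochit_not_mem {N : ℕ} {r l : ℕ → ℝ} (S : Finset ℕ) (T : Set (Cfg N))
    (m : ℕ) {η : Cfg N} (hη : η ∉ T) :
    nohit r l S T (m + 1) η = stp r l S (nohit r l S T m) η := by
  show (1 - ind T η) * stp r l S (nohit r l S T m) η = _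
  rw [ind_of_not_mem hη]; ring

/-! ### total height -/

/-- total height -/
def lochit_tot {N : ℕ} (η : Cfg N) : ℕ := ∑ x ∈ range N, ht η x

theorem lochit_tot_Rm {N : ℕ} {η : Cfg N} {b : ℕ} (h1 : 1 ≤ b) (h2 : b < N)
    (h3 : occ η (b - 1) = true) (h4 : occ η b = false) :
    lochit_tot (Rm b η) = lochit_tot η + 1 := by
  unfold lochit_tot
  have hb : b ∈ range N := by simp [h2]
  rw [← Finset.add_sum_erase _ _ hb, ← Finset.add_sum_erase (range N) (fun x => ht η x) hb]
  have e1 : ∑ x ∈ (range N).erase b, ht (Rm b η) x = ∑ x ∈ (range N).erase b, ht η x := by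
    apply Finset.sum_congr rfl
    intro x hx
    exact ht_Rm_ne η (Finset.ne_of_mem_erase hx)
  rw [e1]
  have e2 : ht (Rm b η) b = ht η b + 1 := by
    rw [ht_Rm η h1 h2]
    have a1 := (occ_iff_ht η (by omega : b - 1 < N)).1 h3
    have a2 := (not_occ_iff_ht η h2).1 h4
    have e : b - 1 + 1 = b := by omega
    rw [e] at a1
    omega
  rw [e2]; ring

theorem lochit_eq_top {N k : ℕ} (hk : k ≤ N) {η : Cfg N} (hη : ht η 0 = k)
    (h : lochit_tot (top N k) ≤ lochit_tot η) : η = top N k := by
  have h1 := hle_top hk hη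
  have h2 : ∀ x ∈ range N, ht η x ≤ ht (top N k) x := fun x _ => h1 x
  have h3 : ∑ x ∈ range N, ht η x = ∑ x ∈ range N, ht (top N k) x :=
    le_antisymm (Finset.sum_le_sum h2) h
  have h4 := (Finset.sum_eq_sum_iff_of_le h2).1 h3
  apply ext_ht
  intro x
  rcases lt_or_ge x N with hx | hx
  · exact h4 x (by simp [hx])
  · rw [ht_ge hx, ht_ge hx]

theorem lochit_sum1 (m n : ℕ) : 2 * ∑ i ∈ range n, (m - i) ≤ m * (m + 1) := by
  induction m generalizing n with
  | zero => simp
  | succ m ih =>
    cases n with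
    | zero => simp
    | succ n =>
      rw [Finset.sum_range_succ']
      have e : ∑ i ∈ range n, (m + 1 - (i + 1)) = ∑ i ∈ range n, (m - i) := by
        apply Finset.sum_congr rfl; intro i _; omega
      rw [e]
      have := ih n
      simp only [Nat.sub_zero]
      nlinarith

theorem lochit_sum2 (m x0 k : ℕ) :
    ∑ x ∈ range (x0 + k), ((m - (x0 - x)) - (x - x0)) ≤ m ^ 2 := by
  rw [Finset.sum_range_add]
  have e1 : ∑ x ∈ range x0, ((m - (x0 - x)) - (x - x0)) = ∑ i ∈ range x0, ((m - 1) - i) := by
    rw [← Finset.sum_range_reflect]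
    apply Finset.sum_congr rfl
    intro i hi
    rw [Finset.mem_range] at hi
    omega
  have e2 : ∑ i ∈ range k, ((m - (x0 - (x0 + i))) - (x0 + i - x0)) = ∑ i ∈ range k, (m - i) := by
    apply Finset.sum_congr rfl
    intro i _
    omega
  rw [e1, e2]
  have a := lochit_sum1 (m - 1) x0
  have b := lochit_sum1 m k
  rcases Nat.eq_zero_or_pos m with hm | hm
  · subst hm; simp
  · have e : m - 1 + 1 = m := by omega
    rw [e] at a
    have e3 : (m - 1) * m + m * (m + 1) = 2 * m ^ 2 := by
      obtain ⟨n, rfl⟩ : ∃ n, m = n + 1 := ⟨m - 1, by omega⟩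
      simp only [Nat.add_sub_cancel]
      ring
    omega

section window

variable {N k m0 : ℕ} {η : Cfg N}

theorem lochit_low (hη : ht η 0 = k)
    (hs : η ∈ (sorted 0 (N - k - m0) (N - k + m0) N : Set (Cfg N))) {x : ℕ}
    (hx : x ≤ N - k - m0) : ht η x = k := by
  have h1 := ht_cnt η (Nat.zero_le x) (by omega : x ≤ N)
  have h2 : cnt η 0 x = 0 := by
    unfold cnt
    apply Finset.sum_eq_zero
    intro i hi
    rw [Finset.mem_Ico] at hi
    rw [hs.1 i (Nat.zero_le i) (by omega)]
    simp
  omega

theorem lochit_high (hs : η ∈ (sorted 0 (N - k - m0) (N - k + m0) N : Set (Cfg N))) {x : ℕ}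
    (hx : N - k + m0 ≤ x) (hxN : x ≤ N) : ht η x = N - x := by
  have h1 := ht_cnt η hxN (le_refl N)
  have h2 : cnt η x N = N - x := by
    unfold cnt
    rw [Finset.sum_congr rfl (g := fun _ => 1)]
    · simp
    · intro i hi
      rw [Finset.mem_Ico] at hi
      rw [hs.2 i (by omega) hi.2]
      simp
  rw [ht_ge (le_refl N)] at h1
  omega

theorem lochit_inv (hk : k ≤ N) (hη : ht η 0 = k)
    (hs : η ∈ (sorted 0 (N - k - m0) (N - k + m0) N : Set (Cfg N))) :
    lochit_tot (top N k) ≤ lochit_tot η + m0 ^ 2 := by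
  have h0 : ∑ x ∈ range N, ((m0 - (N - k - x)) - (x - (N - k))) ≤ m0 ^ 2 := by
    have := lochit_sum2 m0 (N - k) k
    have e : N - k + k = N := by omega
    rwa [e] at this
  refine le_trans ?_ (Nat.add_le_add_left h0 _)
  unfold lochit_tot
  rw [← Finset.sum_add_distrib]
  apply Finset.sum_le_sum
  intro x hx
  rw [Finset.mem_range] at hx
  rw [ht_top hk]
  rcases le_or_gt x (N - k) with h | h
  · -- left part
    have h1 : k ≤ ht η x + (x - (N - k - m0)) := by
      rcases le_or_gt x (N - k - m0) with h2 | h2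
      · rw [lochit_low hη hs h2]; omega
      · have a := lochit_low hη hs (le_refl (N - k - m0))
        have b := ht_le_sub η h2.le
        omega
    omega
  · have h1 : N - x ≤ ht η x + (N - k + m0 - x) := by
      rcases le_or_gt (N - k + m0) x with h2 | h2
      · rw [lochit_high hs h2 hx.le]; omega
      · rcases le_or_gt N (N - k + m0) with h3 | h3
        · omega
        · have a := lochit_high hs (le_refl (N - k + m0)) h3.le
          have b := ht_anti η h2.le
          omega
    omega

/-- a discordant bond lies in the window -/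
theorem lochit_disc (hs : η ∈ (sorted 0 (N - k - m0) (N - k + m0) N : Set (Cfg N))) {b : ℕ}
    (hb : b < N) (hd : occ η (b - 1) ≠ occ η b) :
    N - k - m0 ≤ b ∧ b ≤ N - k + m0 := by
  constructor
  · by_contra h
    apply hd
    rw [hs.1 b (Nat.zero_le _) (by omega), hs.1 (b - 1) (Nat.zero_le _) (by omega)]
  · by_contra h
    apply hd
    rw [hs.2 b (by omega) hb, hs.2 (b - 1) (by omega) (by omega)]

theorem lochit_Rm_sorted (hs : η ∈ (sorted 0 (N - k - m0) (N - k + m0) N : Set (Cfg N))) {b : ℕ}
    (h1 : 1 ≤ b) (hb : b < N) (h3 : occ η (b - 1) = true) (h4 : occ η b = false) :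
    Rm b η ∈ (sorted 0 (N - k - m0) (N - k + m0) N : Set (Cfg N)) := by
  have e : Rm b η = swp b η := by
    unfold Rm; rw [if_pos ⟨h1, hb, h3, h4⟩]
  rw [e]
  have c1 : ¬ (b - 1 < N - k - m0) := by
    intro h
    have := hs.1 (b - 1) (Nat.zero_le _) h
    rw [h3] at this; exact absurd this (by simp)
  have c2 : ¬ (N - k + m0 ≤ b) := by
    intro h
    have := hs.2 b h hb
    rw [h4] at this; exact absurd this (by simp)
  constructor
  · intro i _ hi
    rw [occ_swp_ne h1 hb η (by omega) (by omega)]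
    exact hs.1 i (Nat.zero_le _) hi
  · intro i hi hiN
    rw [occ_swp_ne h1 hb η (by omega) (by omega)]
    exact hs.2 i hi hiN

/-- a state different from the top has a bond `(1,0)` -/
theorem lochit_exists (hk : k ≤ N) (hη : ht η 0 = k) (hne : η ≠ top N k) :
    ∃ b, 1 ≤ b ∧ b < N ∧ occ η (b - 1) = true ∧ occ η b = false := by
  have h1 : ∃ x, ht η x < ht (top N k) x := by
    by_contra h
    push Not at h
    apply hne
    apply hle_antisymm (hle_top hk hη)
    intro x; exact h x
  obtain ⟨x, hx⟩ := h1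
  rw [ht_top hk] at hx
  have hxN : x < N := by
    by_contra h; omega
  have h2 : ∃ i, i < x ∧ occ η i = true := by
    by_contra h
    push Not at h
    have a := ht_cnt η (Nat.zero_le x) hxN.le
    have b : cnt η 0 x = 0 := by
      unfold cnt
      apply Finset.sum_eq_zero
      intro i hi
      rw [Finset.mem_Ico] at hi
      rw [if_neg (h i hi.2)]
    omega
  have h3 : ∃ j, x ≤ j ∧ j < N ∧ occ η j = false := by
    by_contra h
    push Not at h
    have a := ht_cnt η hxN.le (le_refl N)
    have b : cnt η x N = N - x := by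
      unfold cnt
      rw [Finset.sum_congr rfl (g := fun _ => 1)]
      · simp
      · intro i hi
        rw [Finset.mem_Ico] at hi
        have := h i hi.1 hi.2
        rw [if_pos (by simpa using this)]
    omega
  obtain ⟨i, hi, hi2⟩ := h2
  obtain ⟨j, hj, hjN, hj2⟩ := h3
  have h4 : ∃ n, occ η (i + n) = true ∧ occ η (i + (n + 1)) = false ∧ i + (n + 1) ≤ j := by
    by_contra h
    push Not at h
    have h5 : ∀ n, i + n ≤ j → occ η (i + n) = true := by
      intro n
      induction n with
      | zero => intro _; simpa using hi2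
      | succ n ih =>
        intro hn
        have a := ih (by omega)
        by_contra hc
        have hc' : occ η (i + (n + 1)) = false := by simpa using hc
        have := h n a hc'
        omega
    have h6 := h5 (j - i) (by omega)
    have e : i + (j - i) = j := by omega
    rw [e, hj2] at h6
    exact absurd h6 (by simp)
  obtain ⟨n, hn1, hn2, hn3⟩ := h4
  refine ⟨i + (n + 1), by omega, by omega, ?_, hn2⟩
  have e : i + (n + 1) - 1 = i + n := by omega
  rw [e]; exact hn1

end window

/-! ### one step from a state of the window -/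

theorem lochit_Rm_id {N : ℕ} {η : Cfg N} {x : ℕ}
    (h : ¬ (occ η (x - 1) = true ∧ occ η x = false)) : Rm x η = η := by
  unfold Rm; rw [if_neg (by tauto)]

theorem lochit_Lm_id {N : ℕ} {η : Cfg N} {x : ℕ}
    (h : ¬ (occ η (x - 1) = false ∧ occ η x = true)) : Lm x η = η := by
  unfold Lm; rw [if_neg (by tauto)]

/-- real recursion -/
theorem lochit_rec {u : ℕ → ℝ} {q ρ a : ℝ} (hq : 0 < q) (hq1 : q ≤ 1)
    (h0 : 0 ≤ u 0) (hu : ∀ s, (1 - q) * u s + ρ * a ≤ u (s + 1)) (s : ℕ) :
    ρ * a / q * (1 - (1 - q) ^ s) ≤ u s := by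
  induction s with
  | zero => simpa using h0
  | succ s ih =>
    refine le_trans ?_ (hu s)
    have h1 : (1 - q) * (ρ * a / q * (1 - (1 - q) ^ s)) ≤ (1 - q) * u s :=
      mul_le_mul_of_nonneg_left ih (by linarith)
    have h2 : ρ * a / q * (1 - (1 - q) ^ (s + 1)) =
        (1 - q) * (ρ * a / q * (1 - (1 - q) ^ s)) + ρ * a := by
      field_simp
      ring
    rw [h2]; linarith

theorem lochit_step {N k m0 : ℕ} {r l : ℕ → ℝ} {c : ℝ} {η : Cfg N}
    (hN : 1 ≤ N) (hk : k ≤ N) (hA : Adm N r l) (hη : ht η 0 = k)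
    (hs : η ∈ (sorted 0 (N - k - m0) (N - k + m0) N : Set (Cfg N)))
    (hr : ∀ b, 1 ≤ b → b < N → N ≤ b + k + m0 → b + k ≤ N + m0 → c ≤ r b)
    (hne : η ≠ top N k) :
    ∃ q ρ : ℝ, c / (2 * N) ≤ ρ ∧ ρ ≤ q ∧ q ≤ (2 * m0 + 1) / (2 * N) ∧ q ≤ 1 ∧
      ∀ (g : Cfg N → ℝ) (a : ℝ), (∀ ξ, g ξ ≤ 1) →
      (∀ b, 1 ≤ b → b < N → occ η (b - 1) = true → occ η b = false → g (Rm b η) ≤ 1 - a) →
      (1 - q) * (1 - g η) + ρ * a ≤ 1 - stp r l (full N) g η := by
  have hN0 : (0 : ℝ) < N := by exact_mod_cast hN
  have hN2 : (0 : ℝ) < 2 * N := by linarith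
  set R : ℕ → ℝ := fun x => if occ η (x - 1) = true ∧ occ η x = false then r x else 0 with hRdef
  set L : ℕ → ℝ := fun x => if occ η (x - 1) = false ∧ occ η x = true then l x else 0 with hLdef
  have hfull : ∀ x, x ∈ full N ↔ 1 ≤ x ∧ x < N := by
    intro x; rw [full, Finset.mem_Ico]
  have hR0 : ∀ x ∈ full N, 0 ≤ R x := by
    intro x hx
    obtain ⟨p1, p2, p3, p4⟩ := hA x ((hfull x).1 hx).1 ((hfull x).1 hx).2
    simp only [hRdef]; split_ifs
    · linarith
    · exact le_rfl
  have hL0 : ∀ x ∈ full N, 0 ≤ L x := by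
    intro x hx
    obtain ⟨p1, p2, p3, p4⟩ := hA x ((hfull x).1 hx).1 ((hfull x).1 hx).2
    simp only [hLdef]; split_ifs
    · linarith
    · exact le_rfl
  have hRL : ∀ x ∈ full N, R x + L x ≤ if x ∈ Finset.Icc (N - k - m0) (N - k + m0) then 1 else 0 := by
    intro x hx
    have hx' := (hfull x).1 hx
    obtain ⟨p1, p2, p3, p4⟩ := hA x hx'.1 hx'.2
    by_cases hd : occ η (x - 1) = occ η x
    · have e1 : R x = 0 := by
        simp only [hRdef]
        rw [if_neg]
        rintro ⟨a1, a2⟩
        rw [hd, a2] at a1; exact absurd a1 (by simp)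
      have e2 : L x = 0 := by
        simp only [hLdef]
        rw [if_neg]
        rintro ⟨a1, a2⟩
        rw [hd, a2] at a1; exact absurd a1 (by simp)
      rw [e1, e2]
      split_ifs <;> norm_num
    · have hw := lochit_disc hs hx'.2 hd
      rw [if_pos (Finset.mem_Icc.2 hw)]
      by_cases h1 : occ η (x - 1) = true
      · have e2 : L x = 0 := by
          simp only [hLdef]
          rw [if_neg]
          rintro ⟨a1, _⟩
          rw [h1] at a1; exact absurd a1 (by simp)
        rw [e2, add_zero]
        simp only [hRdef]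
        split_ifs <;> linarith
      · have e2 : R x = 0 := by
          simp only [hRdef]
          rw [if_neg]
          rintro ⟨a1, _⟩
          exact h1 a1
        rw [e2, zero_add]
        simp only [hLdef]
        split_ifs <;> linarith
  have hR1 : ∀ x ∈ full N, R x + L x ≤ 1 := by
    intro x hx
    refine (hRL x hx).trans ?_
    split_ifs <;> norm_num
  refine ⟨(∑ x ∈ full N, R x + ∑ x ∈ full N, L x) / (2 * N), (∑ x ∈ full N, R x) / (2 * N),
    ?_, ?_, ?_, ?_, ?_⟩
  · obtain ⟨b, hb1, hb2, hb3, hb4⟩ := lochit_exists hk hη hne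
    have hw := lochit_disc hs hb2 (by rw [hb3, hb4]; simp)
    have h1 : c ≤ r b := hr b hb1 hb2 (by omega) (by omega)
    have h2 : R b ≤ ∑ x ∈ full N, R x := Finset.single_le_sum hR0 ((hfull b).2 ⟨hb1, hb2⟩)
    have h3 : R b = r b := by simp only [hRdef]; rw [if_pos ⟨hb3, hb4⟩]
    exact div_le_div_of_nonneg_right (by linarith) hN2.le
  · exact div_le_div_of_nonneg_right (by linarith [Finset.sum_nonneg hL0]) hN2.le
  · apply div_le_div_of_nonneg_right _ hN2.le
    rw [← Finset.sum_add_distrib]
    refine (Finset.sum_le_sum hRL).trans ?_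
    rw [Finset.sum_ite_mem]
    rw [Finset.sum_const, nsmul_eq_mul, mul_one]
    have h1 : (full N ∩ Finset.Icc (N - k - m0) (N - k + m0)).card ≤ 2 * m0 + 1 := by
      refine (Finset.card_le_card Finset.inter_subset_right).trans ?_
      rw [Nat.card_Icc]; omega
    exact_mod_cast h1
  · rw [div_le_one hN2, ← Finset.sum_add_distrib]
    refine (Finset.sum_le_sum hR1).trans ?_
    rw [Finset.sum_const, full, Nat.card_Ico, nsmul_eq_mul, mul_one]
    have : ((N - 1 : ℕ) : ℝ) ≤ N := by exact_mod_cast Nat.sub_le N 1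
    linarith
  · intro g a hg hga
    have key : ∀ x ∈ full N, r x * (g (RmS (full N) x η) - g η) +
        l x * (g (LmS (full N) x η) - g η) ≤ R x * (1 - a - g η) + L x * (1 - g η) := by
      intro x hx
      have hx' := (hfull x).1 hx
      obtain ⟨p1, p2, p3, p4⟩ := hA x hx'.1 hx'.2
      have e1 : RmS (full N) x η = Rm x η := by unfold RmS; rw [if_pos hx]
      have e2 : LmS (full N) x η = Lm x η := by unfold LmS; rw [if_pos hx]
      rw [e1, e2]
      apply add_le_add
      · simp only [hRdef]
        by_cases h1 : occ η (x - 1) = true ∧ occ η x = false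
        · rw [if_pos h1]
          exact mul_le_mul_of_nonneg_left (by linarith [hga x hx'.1 hx'.2 h1.1 h1.2]) p1.le
        · rw [if_neg h1, lochit_Rm_id h1]; simp
      · simp only [hLdef]
        by_cases h1 : occ η (x - 1) = false ∧ occ η x = true
        · rw [if_pos h1]
          exact mul_le_mul_of_nonneg_left (by linarith [hg (Lm x η)]) p3
        · rw [if_neg h1, lochit_Lm_id h1]; simp
    have h1 : stp r l (full N) g η ≤ g η + (∑ x ∈ full N,
        (R x * (1 - a - g η) + L x * (1 - g η))) / (2 * N) := by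
      unfold stp
      have := div_le_div_of_nonneg_right (Finset.sum_le_sum key) hN2.le
      linarith
    rw [Finset.sum_add_distrib, ← Finset.sum_mul, ← Finset.sum_mul] at h1
    have h2 : g η + ((∑ x ∈ full N, R x) * (1 - a - g η) + (∑ x ∈ full N, L x) * (1 - g η)) /
        (2 * N) = 1 - ((1 - (∑ x ∈ full N, R x + ∑ x ∈ full N, L x) / (2 * N)) * (1 - g η) +
          (∑ x ∈ full N, R x) / (2 * N) * a) := by
      field_simp
      ring
    rw [h2] at h1
    linarith

/-- module LOCHIT -/
theorem st_LOCHIT : ST_LOCHIT := by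
  intro N k r l m0 b0 c η hN hk hA hη hs hc hc1 hr hb0
  set T : ℕ := ⌈2 * (N : ℝ) / c⌉₊ with hT
  set p : ℝ := c / (4 * ((m0 : ℝ) + 1)) with hp
  have hm0 : (0 : ℝ) ≤ m0 := Nat.cast_nonneg m0
  have hp0 : 0 < p := by rw [hp]; positivity
  have hp1 : p ≤ 1 := by
    rw [hp, div_le_one (by positivity)]; linarith
  have hN0 : (0 : ℝ) < N := by exact_mod_cast hN
  have hTle : 2 * (N : ℝ) / c ≤ T := Nat.le_ceil _
  have claim : ∀ j : ℕ, ∀ ξ : Cfg N, ht ξ 0 = k →
      ξ ∈ (sorted 0 (N - k - m0) (N - k + m0) N : Set (Cfg N)) →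
      lochit_tot (top N k) ≤ lochit_tot ξ + j →
      nohit r l (full N) {top N k} (j * T) ξ ≤ 1 - p ^ j := by
    intro j
    induction j with
    | zero =>
      intro ξ h1 _ h3
      have h4 := lochit_eq_top hk h1 (by simpa using h3)
      rw [lochit_mem _ _ _ (by rw [h4]; exact Set.mem_singleton _)]
      simp
    | succ j ih =>
      intro ξ h1 h2 h3
      by_cases hne : ξ = top N k
      · rw [lochit_mem _ _ _ (by rw [hne]; exact Set.mem_singleton _)]
        have := pow_le_one₀ hp0.le hp1 (n := j + 1)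
        linarith
      obtain ⟨q, ρ, q1, q2, q3, q4, q5⟩ := lochit_step hN hk hA h1 h2 hr hne
      have hρ0 : 0 < ρ := lt_of_lt_of_le (by positivity) q1
      have hq0 : 0 < q := lt_of_lt_of_le hρ0 q2
      have hnm : ξ ∉ ({top N k} : Set (Cfg N)) := by
        rw [Set.mem_singleton_iff]; exact hne
      have hu : ∀ s, (1 - q) * (1 - nohit r l (full N) {top N k} (j * T + s) ξ) + ρ * p ^ j ≤
          1 - nohit r l (full N) {top N k} (j * T + (s + 1)) ξ := by
        intro s
        have e : j * T + (s + 1) = (j * T + s) + 1 := by ring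
        rw [e, lochit_not_mem _ _ _ hnm]
        apply q5 _ (p ^ j) (lochit_le_one hA _ _ _)
        intro b hb1 hb2 hb3 hb4
        refine (lochit_anti hA _ _ (Nat.le_add_right (j * T) s) _).trans ?_
        apply ih
        · rw [ht_Rm_zero]; exact h1
        · exact lochit_Rm_sorted h2 hb1 hb2 hb3 hb4
        · rw [lochit_tot_Rm hb1 hb2 hb3 hb4]; omega
      have h4 := lochit_rec (u := fun s => 1 - nohit r l (full N) {top N k} (j * T + s) ξ)
        hq0 q4 (by simpa using lochit_le_one hA (full N) {top N k} (j * T) ξ) hu T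
      have e2 : (j + 1) * T = j * T + T := by ring
      rw [e2]
      -- bound (1-q)^T
      have h5 : (1 - q) ^ T ≤ 1 / 2 := by
        have a1 : 1 - q ≤ Real.exp (-q) := by
          have := Real.add_one_le_exp (-q); linarith
        have a2 : (1 - q) ^ T ≤ Real.exp (-q) ^ T := pow_le_pow_left₀ (by linarith) a1 T
        rw [← Real.exp_nat_mul] at a2
        have a3 : (1 : ℝ) ≤ T * q := by
          have b1 : c / (2 * N) ≤ q := q1.trans q2
          have b2 : 2 * (N : ℝ) / c * (c / (2 * N)) = 1 := by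
            field_simp
          calc (1 : ℝ) = 2 * (N : ℝ) / c * (c / (2 * N)) := b2.symm
            _ ≤ T * q := mul_le_mul hTle b1 (by positivity) (Nat.cast_nonneg T)
        have a4 : Real.exp ((T : ℝ) * -q) ≤ Real.exp (-1) := by
          apply Real.exp_le_exp.2; linarith
        have a5 : Real.exp (-1) ≤ 1 / 2 := by
          rw [Real.exp_neg, inv_le_comm₀ (Real.exp_pos 1) (by norm_num)]
          have := Real.add_one_le_exp (1 : ℝ)
          norm_num at this ⊢
          linarith
        linarith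
      have h6 : p * p ^ j ≤ ρ * p ^ j / q * (1 - (1 - q) ^ T) := by
        have b0 : 0 < p ^ j := pow_pos hp0 j
        have b1 : c / (2 * m0 + 1) ≤ ρ / q := by
          rw [div_le_div_iff₀ (by positivity) hq0]
          have c1 : c ≤ ρ * (2 * N) := by
            rw [div_le_iff₀ (by positivity)] at q1; exact q1
          have c2 : q * (2 * N) ≤ 2 * m0 + 1 := by
            rw [le_div_iff₀ (by positivity)] at q3; exact q3
          have c3 : c * (q * (2 * N)) ≤ (ρ * (2 * N)) * (2 * m0 + 1) :=
            mul_le_mul c1 c2 (by positivity) (by positivity)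
          have c4 : (0 : ℝ) < 2 * N := by positivity
          nlinarith
        have b2 : p ≤ c / (2 * m0 + 1) * (1 / 2) := by
          rw [hp, div_mul_div_comm, mul_one]
          apply div_le_div_of_nonneg_left hc.le (by positivity)
          linarith
        have b3 : p ≤ ρ / q * (1 - (1 - q) ^ T) := by
          refine b2.trans ?_
          apply mul_le_mul b1 (by linarith) (by norm_num) (by positivity)
        have b4 : ρ * p ^ j / q * (1 - (1 - q) ^ T) = (ρ / q * (1 - (1 - q) ^ T)) * p ^ j := by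
          ring
        rw [b4]
        exact mul_le_mul_of_nonneg_right b3 b0.le
      have h7 : p ^ (j + 1) = p * p ^ j := by ring
      rw [h7]
      have h8 : ρ * p ^ j / q * (1 - (1 - q) ^ T) ≤
        1 - nohit r l (full N) {top N k} (j * T + T) ξ := h4
      linarith
  refine (lochit_anti hA _ _ hb0 η).trans ?_
  exact claim (m0 ^ 2) η hη hs (lochit_inv hk hη hs)

end Pool.Agent.Helper98.EX
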